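import Pool.Agent.H10.VirMain

set_option autoImplicit false

namespace Pool.Agent.Results.MP_b4de2f_al.Drops

open Pool.Agent.H10.Vir

/-- MP_b4de2f_al, Q1, in its negated form: there are `ℓ ≥ 2`, a prime `p > 2ℓ² + ℓ - 3`, indices
`1 ≤ n ≤ m ≤ ℓ` and a degree `k` such that over every algebraically closed field of characteristic
`p` the degree `k` part of the simple module of the minimal series has strictly smaller dimension
than over the complex numbers (witness: `ℓ = 3`, `p = 23`, `(m, n) = (3, 2)`, `k = 4`). -/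
theorem result : ∃ l m n p k : ℕ, 2 ≤ l ∧ 1 ≤ n ∧ n ≤ m ∧ m ≤ l ∧ p.Prime ∧
    2 * l ^ 2 + l - 3 < p ∧
    ∀ (F V W : Type) [Field F] [IsAlgClosed F] [CharP F p] [AddCommGroup V] [Module F V]
      [AddCommGroup W] [Module ℂ W] (L : ℤ → V →ₗ[F] V) (v : V) (L' : ℤ → W →ₗ[ℂ] W) (w : W),
      IsSimpleHW F V (cc F l) (hh F l m n) L v →
      IsSimpleHW ℂ W (cc ℂ l) (hh ℂ l m n) L' w →
      Module.finrank F (degPart L v k) < Module.finrank ℂ (degPart L' w k) :=
  main

end Pool.Agent.Results.MP_b4de2f_al.Drops
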